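import Pool.Agent.Helper66.NF.All

namespace Pool.Agent.Helper66.Parked.DimensionFree

open Finset

/-- Every system of subsets of `{1, …, n}` of maximum degree at most `t` has a colouring of
discrepancy at most `C * √t * (1 + log t)`, with an absolute constant `C`: no dependence on the
number of elements or of sets. -/
theorem result : ∃ C : ℝ, ∀ (n m t : ℕ) (S : Fin m → Finset (Fin n)), 1 ≤ t →
    (∀ i : Fin n, (univ.filter (fun j : Fin m => i ∈ S j)).card ≤ t) →
    ∃ χ : Fin n → ℤ, (∀ i, χ i = 1 ∨ χ i = -1) ∧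
      ∀ j : Fin m, |((∑ i ∈ S j, χ i : ℤ) : ℝ)| ≤ C * √t * (1 + Real.log t) := by
  obtain ⟨C, h⟩ := Pool.Agent.Helper66.NF.nfree
  refine ⟨C, ?_⟩
  intro n m t S ht hdeg
  exact h n m t S ht (fun v => by convert hdeg v)

end Pool.Agent.Helper66.Parked.DimensionFree
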