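import Pool.Agent.Helper50.BK.MainK
import Pool.Agent.Helper92.BO.S3K
import Pool.Agent.Helper98.BK.RTK

namespace Pool.Agent.Helper66.Parked.DoublyLogarithmicReal

open Finset

/-- Every real `m × n` matrix with entries in `[-1, 1]` whose columns have Euclidean norm at most
`√t` has signs `χ` with `|(A χ)_i| ≤ C (√t + √L (1 + log L))` for all `i`, where
`L = 1 + log (1 + log (1 + min n m))`; the incidence matrices of set systems of maximum degree at
most `t` are the case of entries `0` and `1`. -/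
theorem result : ∃ C : ℝ, ∀ (n m : ℕ) (t : ℝ), 1 ≤ t → ∀ A : Fin m → Fin n → ℝ,
    (∀ i x, |A i x| ≤ 1) → (∀ x : Fin n, ∑ i : Fin m, A i x ^ 2 ≤ t) →
    ∀ L : ℝ, L = 1 + Real.log (1 + Real.log (1 + (min n m : ℕ))) →
    ∃ χ : Fin n → ℤ, (∀ x, χ x = 1 ∨ χ x = -1) ∧ ∀ i : Fin m,
      |∑ x : Fin n, A i x * χ x| ≤ C * (√t + √L * (1 + Real.log L)) := by
  obtain ⟨C, -, h⟩ := Pool.Agent.Helper50.BK.topK
    (Pool.Agent.Helper92.BK.s3k_proof _root_.Helper81.BO.s1a _root_.Helper81.BO.s1b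
      _root_.Helper81.BO.s1c Pool.Agent.Helper50.BO.S2.s2a Pool.Agent.Helper50.BO.S2.s2b
      Pool.Agent.Helper50.BO.S2.s2c)
    Pool.Agent.Helper68.BO.thp_proof (C := 3000000) (by norm_num)
    (Pool.Agent.Helper50.BK.roundsK_of Pool.Agent.Helper92.BK.r1k2_proof
      Pool.Agent.Helper98.BK.rtk_proof)
  refine ⟨C, ?_⟩
  intro n m t ht A hA hdeg L hL
  obtain ⟨χ, c1, c2⟩ := h (Fin n) (Fin m) (fun x i => A i x) t ht (fun x i => hA i x) hdeg
  refine ⟨χ, c1, fun j => (c2 j).trans (le_of_eq ?_)⟩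
  rw [hL, Fintype.card_fin, Fintype.card_fin, add_comm ((min n m : ℕ) : ℝ) 1]
  rfl

end Pool.Agent.Helper66.Parked.DoublyLogarithmicReal
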