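import Pool.Agent.Helper26.Bg.Main

namespace Pool.Agent.Helper66.Parked.LocalBeckFiala

theorem result {V J : Type*} [Fintype V] [Fintype J] (c : J → V → ℝ) (t a : ℝ) (D : ℕ)
    (ha : 0 ≤ a) (hent : ∀ (j : J) (i : V), |c j i| ≤ a)
    (hcol : ∀ i : V, ∑ j : J, c j i ^ 2 ≤ t)
    (hD : ∀ j : J, {l : J | ∃ i : V, c j i ≠ 0 ∧ c l i ≠ 0}.ncard ≤ D)
    (z : V → ℝ) (hz : ∀ i : V, |z i| ≤ 1) :
    ∃ χ : V → ℤ, (∀ i, χ i = 1 ∨ χ i = -1) ∧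
      ∀ j : J, |∑ i : V, c j i * ((χ i : ℝ) - z i)|
        ≤ 8000 * (√t + 224 * a *
            (√(Real.log (2 * D)) * (1 + Real.log (1 + Real.log (2 * D))))) :=
  Pool.Agent.Helper26.Bg.local_bf c t a D ha hent hcol hD z hz

end Pool.Agent.Helper66.Parked.LocalBeckFiala
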