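import Pool.Agent.Helper50.BL2.All2

namespace Pool.Agent.Helper66.Parked.SmallIntersections

open Finset

/-- Set systems in which any two sets of comparable size have a small intersection: the Beck-Fiala
bound up to logarithms of the degree, uniformly in the number of points, the number of sets and
the sizes of the sets. -/
theorem result : ∀ δ : ℝ, 0 < δ → δ < 1 → ∃ C : ℝ, ∀ (n m t d : ℕ), 1 ≤ t → 1 ≤ d →
    ∀ S : Fin m → Finset (Fin n),
      (∀ x : Fin n, (univ.filter (fun j => x ∈ S j)).card ≤ t) →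
      (∀ i j : Fin m, i ≠ j → (S i).card ≤ (S j).card → (S j).card ≤ (S i).card ^ 2 →
        ((S i ∩ S j).card : ℝ) ≤ max (d : ℝ) (((S i).card : ℝ) ^ (1 - δ))) →
      ∃ χ : Fin n → ℤ, (∀ x, χ x = 1 ∨ χ x = -1) ∧ ∀ j : Fin m,
        |((∑ x ∈ S j, χ x : ℤ) : ℝ)|
          ≤ C * Real.sqrt (t * Real.log (2 * t * d)) * Real.log (2 * t * d) ^ 3 := by
  intro δ h0 h1
  obtain ⟨C, hC⟩ := Pool.Agent.Helper50.BL.all2 δ h0 h1
  refine ⟨C, ?_⟩
  intro n m t d ht hd S hdeg hov
  have hD : @Pool.Agent.Helper50.BL.Deg (Fin n) (Fin m) _ _ S t := by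
    intro x
    refine le_trans (le_of_eq ?_) (hdeg x)
    apply congrArg
    ext j
    simp
  exact hC t d ht hd (Fin n) (Fin m) S hD hov

end Pool.Agent.Helper66.Parked.SmallIntersections
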